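import Pool.Agent.Helper95_PA.Defs

/-!
# Module D1: the definable ultrapower
-/

set_option autoImplicit false

noncomputable section

namespace Pool.Agent.Helper55_PA

open FirstOrder FirstOrder.Language Filter Pool.Agent.Helper95_PA

variable {X : Type} (U : Ultrafilter X)

/-- the ultrapower -/
abbrev W : Type := (U : Filter X).Product (fun _ : X => ℕ)

/-- the class of a function -/
def cl (f : X → ℕ) : W U := ((f : ∀ _ : X, ℕ) : (U : Filter X).Product (fun _ : X => ℕ))

variable {U}

theorem cl_eq {f g : X → ℕ} : cl U f = cl U g ↔ ∀ᶠ x in (U : Filter X), f x = g x :=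
  Quotient.eq''

theorem cl_surj (z : W U) : ∃ f, cl U f = z := Quotient.exists_rep z

theorem closed_fn {A : Set (X → ℕ)} (hA : Closed A) {n : ℕ} (fn : Language.ring.Functions n)
    (f : Fin n → X → ℕ) (hf : ∀ i, f i ∈ A) :
    (fun t => (Structure.funMap fn (fun i => f i t) : ℕ)) ∈ A := by
  match n, fn with
  | _, .add => exact hA ⟨2, fun v => v 0 + v 1⟩ (by simp [P0]) f hf
  | _, .mul => exact hA ⟨2, fun v => v 0 * v 1⟩ (by simp [P0]) f hf
  | _, .neg => exact hA ⟨1, fun _ => 0⟩ (by simp [P0]) f hf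
  | _, .zero => exact hA ⟨0, fun _ => 0⟩ (by simp [P0]) f hf
  | _, .one => exact hA ⟨0, fun _ => 1⟩ (by simp [P0]) f hf

theorem closed_skolem {A : Set (X → ℕ)} (hA : Closed A) (ψ : Language.ring.Formula ℕ) (m : ℕ)
    (f : Fin m → X → ℕ) (hf : ∀ i, f i ∈ A) :
    (fun t => skolem ψ m (fun i => f i t)) ∈ A :=
  hA ⟨m, skolem ψ m⟩ (Or.inl ⟨(ψ, m), rfl⟩) f hf

theorem closed_zero {A : Set (X → ℕ)} (hA : Closed A) : (fun _ => 0) ∈ A :=
  hA ⟨0, fun _ => 0⟩ (by simp [P0]) Fin.elim0 (fun i => i.elim0)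

theorem closed_one {A : Set (X → ℕ)} (hA : Closed A) : (fun _ => 1) ∈ A :=
  hA ⟨0, fun _ => 1⟩ (by simp [P0]) Fin.elim0 (fun i => i.elim0)

theorem closed_pred {A : Set (X → ℕ)} (hA : Closed A) {f : X → ℕ} (hf : f ∈ A) :
    (fun t => f t - 1) ∈ A :=
  hA ⟨1, fun v => v 0 - 1⟩ (by simp [P0]) (fun _ => f) (fun _ => hf)

theorem closed_add {A : Set (X → ℕ)} (hA : Closed A) {f g : X → ℕ} (hf : f ∈ A) (hg : g ∈ A) :
    (fun t => f t + g t) ∈ A :=
  hA ⟨2, fun v => v 0 + v 1⟩ (by simp [P0]) ![f, g] (by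
    intro i
    fin_cases i
    · exact hf
    · exact hg)

theorem closed_mul {A : Set (X → ℕ)} (hA : Closed A) {f g : X → ℕ} (hf : f ∈ A) (hg : g ∈ A) :
    (fun t => f t * g t) ∈ A :=
  hA ⟨2, fun v => v 0 * v 1⟩ (by simp [P0]) ![f, g] (by
    intro i
    fin_cases i
    · exact hf
    · exact hg)

theorem closed_eqi {A : Set (X → ℕ)} (hA : Closed A) {f g : X → ℕ} (hf : f ∈ A) (hg : g ∈ A) :
    (fun t => if f t = g t then 1 else 0) ∈ A :=
  hA ⟨2, fun v => if v 0 = v 1 then 1 else 0⟩ (by simp [P0]) ![f, g] (by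
    intro i
    fin_cases i
    · exact hf
    · exact hg)

theorem funMap_cl {n : ℕ} (fn : Language.ring.Functions n) (f : Fin n → X → ℕ) :
    (Structure.funMap fn (fun i => cl U (f i)) : W U) =
      cl U (fun t => (Structure.funMap fn (fun i => f i t) : ℕ)) :=
  Ultraproduct.funMap_cast (M := fun _ : X => ℕ) fn f

theorem realize_cl {β : Type} {n : ℕ} (φ : Language.ring.BoundedFormula β n)
    (x : β → X → ℕ) (v : Fin n → X → ℕ) :
    φ.Realize (fun i => cl U (x i)) (fun i => cl U (v i)) ↔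
      ∀ᶠ a in (U : Filter X), φ.Realize (fun i => x i a) (fun i => v i a) :=
  Ultraproduct.boundedFormula_realize_cast (M := fun _ : X => ℕ) φ x v

/-- the Tarski-Vaught property -/
theorem tv {A : Set (X → ℕ)} (hA : Closed A) {n : ℕ}
    (φ : Language.ring.BoundedFormula Empty (n + 1)) (f : Fin n → X → ℕ) (hf : ∀ i, f i ∈ A)
    (g : X → ℕ) (x0 : Empty → W U)
    (h : φ.Realize x0 (fun i => cl U (Fin.snoc (α := fun _ => X → ℕ) f g i))) :
    ∃ g' ∈ A, φ.Realize x0
      (fun i => cl U (Fin.snoc (α := fun _ => X → ℕ) f g' i)) := by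
  set ψ : Language.ring.Formula ℕ :=
    φ.toFormula.relabel (Sum.elim Empty.elim (fun i : Fin (n + 1) => (i : ℕ))) with hψ
  have key : ∀ (v : Fin n → ℕ) (y : ℕ),
      ψ.Realize (fun i => if h : i < n then v ⟨i, h⟩ else y) ↔
        φ.Realize (default : Empty → ℕ) (Fin.snoc (α := fun _ => ℕ) v y) := by
    intro v y
    rw [hψ, Formula.realize_relabel, BoundedFormula.realize_toFormula]
    have e1 : ((fun i : ℕ => if h : i < n then v ⟨i, h⟩ else y) ∘
        Sum.elim Empty.elim (fun i : Fin (n + 1) => (i : ℕ))) ∘ Sum.inl =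
        (default : Empty → ℕ) := Subsingleton.elim _ _
    have e2 : ((fun i : ℕ => if h : i < n then v ⟨i, h⟩ else y) ∘
        Sum.elim Empty.elim (fun i : Fin (n + 1) => (i : ℕ))) ∘ Sum.inr =
        Fin.snoc (α := fun _ => ℕ) v y := by
      funext i
      refine Fin.lastCases ?_ (fun j => ?_) i
      · simp
      · simp
    rw [e1, e2]
  have hd : ∀ g : X → ℕ, (φ.Realize x0
      (fun i => cl U (Fin.snoc (α := fun _ => X → ℕ) f g i))) ↔
      ∀ᶠ t in (U : Filter X), φ.Realize (default : Empty → ℕ)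
        (Fin.snoc (α := fun _ => ℕ) (fun i => f i t) (g t)) := by
    intro g
    have e := realize_cl (U := U) φ (fun i : Empty => i.elim)
      (Fin.snoc (α := fun _ => X → ℕ) f g)
    have e1 : (fun i : Empty => cl U ((fun i : Empty => i.elim) i)) =
        x0 := Subsingleton.elim _ _
    rw [e1] at e
    rw [e]
    have e3 : ∀ t : X, (fun i => Fin.snoc (α := fun _ => X → ℕ) f g i t) =
        Fin.snoc (α := fun _ => ℕ) (fun i => f i t) (g t) := by
      intro t
      funext i
      refine Fin.lastCases ?_ (fun j => ?_) i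
      · simp
      · simp
    have e4 : ∀ t : X, (fun i : Empty => (i.elim : X → ℕ) t) = (default : Empty → ℕ) :=
      fun t => Subsingleton.elim _ _
    simp only [e3, e4]
  refine ⟨fun t => skolem ψ n (fun i => f i t), closed_skolem hA ψ n f hf, ?_⟩
  rw [hd] at h ⊢
  filter_upwards [h] with t ht
  rw [← key] at ht ⊢
  exact Nat.sInf_mem (s := {y : ℕ | ψ.Realize (fun i => if h : i < n then f ⟨i, h⟩ t else y)})
    ⟨g t, ht⟩

/-- the substructure of the ultrapower given by a closed set of functions -/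
def sub {A : Set (X → ℕ)} (hA : Closed A) : Language.ring.Substructure (W U) where
  carrier := {z | ∃ f ∈ A, cl U f = z}
  fun_mem := by
    intro n fn x hx
    choose f hf hfx using hx
    refine ⟨_, closed_fn hA fn f hf, ?_⟩
    rw [← funMap_cl]
    congr 1
    funext i
    exact hfx i

/-- the elementary substructure of the ultrapower given by a closed set of functions -/
def el {A : Set (X → ℕ)} (hA : Closed A) : Language.ring.ElementarySubstructure (W U) :=
  (sub (U := U) hA).toElementarySubstructure (by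
    intro n φ x a h
    have hx : ∀ i, ∃ f ∈ A, cl U f = (x i : W U) := fun i => (x i).2
    choose f hf hfx using hx
    obtain ⟨g, rfl⟩ := cl_surj a
    have e : ∀ g : X → ℕ, (Fin.snoc ((↑) ∘ x) (cl U g) : _ → W U) =
        fun i => cl U (Fin.snoc (α := fun _ => X → ℕ) f g i) := by
      intro g
      funext i
      refine Fin.lastCases ?_ (fun j => ?_) i
      · simp
      · simp [hfx]
    rw [e] at h
    obtain ⟨g', hg', h'⟩ := tv hA φ f hf g _ h
    refine ⟨⟨cl U g', g', hg', rfl⟩, ?_⟩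
    rw [← e] at h'
    exact h')

theorem mem_el {A : Set (X → ℕ)} (hA : Closed A) (z : W U) :
    z ∈ el (U := U) hA ↔ ∃ f ∈ A, cl U f = z := Iff.rfl

/-! ### the model -/

section Model

variable {D : Set (X → ℕ)} (hD : Closed D)

open Classical in
/-- the quotient map -/
def qm (f : X → ℕ) : el (U := U) hD :=
  if h : f ∈ D then ⟨cl U f, f, h, rfl⟩ else ⟨cl U (fun _ => 0), _, closed_zero hD, rfl⟩

theorem qm_val {f : X → ℕ} (h : f ∈ D) : (qm (U := U) hD f : W U) = cl U f := by
  unfold qm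
  rw [dif_pos h]

theorem qm_surj (z : el (U := U) hD) : ∃ f ∈ D, qm (U := U) hD f = z := by
  obtain ⟨f, hf, hz⟩ := z.2
  refine ⟨f, hf, ?_⟩
  apply Subtype.ext
  rw [qm_val hD hf, hz]

theorem qm_map {n : ℕ} (fn : Language.ring.Functions n) (f : Fin n → X → ℕ)
    (hf : ∀ i, f i ∈ D) :
    Structure.funMap fn (fun i => qm (U := U) hD (f i)) =
      qm (U := U) hD (fun t => Structure.funMap fn (fun i => f i t)) := by
  apply Subtype.ext
  rw [qm_val hD (closed_fn hD fn f hf), ← funMap_cl]
  change Structure.funMap fn (fun i => ((qm (U := U) hD (f i) : W U))) = _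
  congr 1
  funext i
  rw [qm_val hD (hf i)]

theorem qm_el {A : Set (X → ℕ)} (hAD : A ⊆ D) (hA : Closed A) :
    ∃ K : Language.ring.ElementarySubstructure (el (U := U) hD),
      ∀ z, z ∈ K ↔ ∃ f ∈ A, qm (U := U) hD f = z := by
  let S : Language.ring.Substructure (el (U := U) hD) :=
    { carrier := {z | ∃ f ∈ A, qm (U := U) hD f = z}
      fun_mem := by
        intro n fn x hx
        choose f hf hfx using hx
        refine ⟨_, closed_fn hA fn f hf, ?_⟩
        rw [← qm_map hD fn f (fun i => hAD (hf i))]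
        congr 1
        funext i
        exact hfx i }
  refine ⟨S.toElementarySubstructure ?_, fun z => Iff.rfl⟩
  intro n φ x a h
  have hx : ∀ i, ∃ f ∈ A, qm (U := U) hD f = (x i : el (U := U) hD) := fun i => (x i).2
  choose f hf hfx using hx
  obtain ⟨g, hg, rfl⟩ := qm_surj hD a
  have hreal : ∀ b : el (U := U) hD, φ.Realize default (Fin.snoc ((↑) ∘ x) b : _ → _) ↔
      φ.Realize (default : Empty → W U) (fun i => ((Fin.snoc ((↑) ∘ x) b : _ → el (U := U) hD) i
        : W U)) := by
    intro b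
    have := (el (U := U) hD).subtype.map_boundedFormula φ
      (default : Empty → el (U := U) hD) (Fin.snoc ((↑) ∘ x) b : _ → _)
    rw [← this]
    have e : ((el (U := U) hD).subtype ∘ (default : Empty → el (U := U) hD)) =
      (default : Empty → W U) := Subsingleton.elim _ _
    rw [e]
    rfl
  have e : ∀ g ∈ D, (fun i => ((Fin.snoc ((↑) ∘ x) (qm (U := U) hD g) :
      _ → el (U := U) hD) i : W U)) =
      fun i => cl U (Fin.snoc (α := fun _ => X → ℕ) f g i) := by
    intro g hg
    funext i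
    refine Fin.lastCases ?_ (fun j => ?_) i
    · simp [qm_val hD hg]
    · simp only [Fin.snoc_castSucc, Function.comp_apply]
      rw [← hfx, qm_val hD (hAD (hf j))]
  rw [hreal, e g hg] at h
  obtain ⟨g', hg', h'⟩ := tv hA φ f hf g _ h
  refine ⟨⟨qm (U := U) hD g', g', hg', rfl⟩, ?_⟩
  rw [← e g' (hAD hg')] at h'
  exact (hreal _).2 h'

end Model

end Pool.Agent.Helper55_PA
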