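import Pool.Agent.Helper55_PA.Base

/-!
# Module D1: the definable ultrapower is a model of PA
-/

set_option autoImplicit false

noncomputable section

namespace Pool.Agent.Helper55_PA

open FirstOrder FirstOrder.Language Filter Pool.Agent.Helper95_PA

variable {X : Type} {U : Ultrafilter X} {D : Set (X → ℕ)} (hD : Closed D)

theorem qm_eq {f g : X → ℕ} (hf : f ∈ D) (hg : g ∈ D) :
    qm (U := U) hD f = qm (U := U) hD g ↔ ∀ᶠ x in (U : Filter X), f x = g x := by
  rw [← Subtype.coe_inj, qm_val hD hf, qm_val hD hg, cl_eq]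

theorem add_qm {f g : X → ℕ} (hf : f ∈ D) (hg : g ∈ D) :
    Structure.funMap FirstOrder.Ring.addFunc ![qm (U := U) hD f, qm (U := U) hD g] =
      qm (U := U) hD (fun t => f t + g t) := by
  have h := qm_map (U := U) hD FirstOrder.Ring.addFunc ![f, g] (by
    intro i
    fin_cases i
    · exact hf
    · exact hg)
  have e : (fun i => qm (U := U) hD ((![f, g] : Fin 2 → X → ℕ) i)) =
      ![qm (U := U) hD f, qm (U := U) hD g] := by
    funext i
    fin_cases i <;> rfl
  rw [e] at h
  rw [h]
  rfl

theorem mul_qm {f g : X → ℕ} (hf : f ∈ D) (hg : g ∈ D) :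
    Structure.funMap FirstOrder.Ring.mulFunc ![qm (U := U) hD f, qm (U := U) hD g] =
      qm (U := U) hD (fun t => f t * g t) := by
  have h := qm_map (U := U) hD FirstOrder.Ring.mulFunc ![f, g] (by
    intro i
    fin_cases i
    · exact hf
    · exact hg)
  have e : (fun i => qm (U := U) hD ((![f, g] : Fin 2 → X → ℕ) i)) =
      ![qm (U := U) hD f, qm (U := U) hD g] := by
    funext i
    fin_cases i <;> rfl
  rw [e] at h
  rw [h]
  rfl

theorem neg_qm {f : X → ℕ} (hf : f ∈ D) :
    Structure.funMap FirstOrder.Ring.negFunc ![qm (U := U) hD f] =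
      qm (U := U) hD (fun _ => 0) := by
  have h := qm_map (U := U) hD FirstOrder.Ring.negFunc ![f] (by
    intro i
    fin_cases i
    exact hf)
  have e : (fun i => qm (U := U) hD ((![f] : Fin 1 → X → ℕ) i)) =
      ![qm (U := U) hD f] := by
    funext i
    fin_cases i; rfl
  rw [e] at h
  rw [h]
  rfl

theorem zero_qm : (Structure.funMap FirstOrder.Ring.zeroFunc ![] : el (U := U) hD) =
      qm (U := U) hD (fun _ => 0) := by
  have h := qm_map (U := U) hD FirstOrder.Ring.zeroFunc (fun i => i.elim0) (fun i => i.elim0)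
  have e : (fun i : Fin 0 => qm (U := U) hD ((fun i : Fin 0 => (i.elim0 : X → ℕ)) i)) = ![] :=
    Subsingleton.elim _ _
  rw [e] at h
  rw [h]
  rfl

theorem one_qm : (Structure.funMap FirstOrder.Ring.oneFunc ![] : el (U := U) hD) =
      qm (U := U) hD (fun _ => 1) := by
  have h := qm_map (U := U) hD FirstOrder.Ring.oneFunc (fun i => i.elim0) (fun i => i.elim0)
  have e : (fun i : Fin 0 => qm (U := U) hD ((fun i : Fin 0 => (i.elim0 : X → ℕ)) i)) = ![] :=
    Subsingleton.elim _ _
  rw [e] at h
  rw [h]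
  rfl

theorem induction (S : Set (el (U := U) hD))
    (hS : (Set.univ : Set (el (U := U) hD)).Definable Language.ring
      {v : Fin 1 → el (U := U) hD | v 0 ∈ S})
    (h0 : (Structure.funMap FirstOrder.Ring.zeroFunc ![] : el (U := U) hD) ∈ S)
    (hs : ∀ x ∈ S, Structure.funMap FirstOrder.Ring.addFunc
      ![x, Structure.funMap FirstOrder.Ring.oneFunc ![] ] ∈ S) (x : el (U := U) hD) : x ∈ S := by
  classical
  by_contra hx
  rw [Set.definable_iff_exists_formula_sum] at hS
  obtain ⟨φ, hφ⟩ := hS
  have hmem : ∀ z, z ∈ S ↔ φ.Realize (Sum.elim (↑) (fun _ : Fin 1 => z)) := by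
    intro z
    have := congrArg (fun T : Set (Fin 1 → el (U := U) hD) => (fun _ : Fin 1 => z) ∈ T) hφ
    simpa using this
  choose rep hrepD hrep using qm_surj (U := U) hD
  set fv := φ.freeVarFinset with hfv
  let e : fv ≃ Fin fv.card := fv.equivFin
  let F : Fin fv.card → X → ℕ := fun j =>
    Sum.elim (fun p : (Set.univ : Set (el (U := U) hD)) => rep p.1) (fun _ => fun _ => 0)
      (e.symm j).1
  let σ : fv → ℕ := fun a => Sum.elim (fun _ => (e a : ℕ)) (fun _ => fv.card) a.1
  let ψ : Language.ring.Formula ℕ := φ.restrictFreeVar σ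
  let P : X → ℕ → Prop := fun t y =>
    φ.Realize (Sum.elim (fun p : (Set.univ : Set (el (U := U) hD)) => rep p.1 t)
      (fun _ : Fin 1 => y))
  have key : ∀ t y, ψ.Realize (fun i => if h : i < fv.card then F ⟨i, h⟩ t else y) ↔ P t y := by
    intro t y
    apply BoundedFormula.realize_restrictFreeVar
    intro a
    rcases h : a.1 with p | i
    · have h1 : σ a = (e a : ℕ) := by
        simp only [σ, h, Sum.elim_inl]
      rw [h1]
      have h2 : ((e a : Fin fv.card) : ℕ) < fv.card := (e a).2
      simp only [h2, dif_pos, Fin.eta, Sum.elim_inl]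
      simp only [F, Equiv.symm_apply_apply, h, Sum.elim_inl]
    · have h1 : σ a = fv.card := by
        simp only [σ, h, Sum.elim_inr]
      rw [h1]
      simp
  have memS : ∀ g ∈ D, (qm (U := U) hD g ∈ S ↔ ∀ᶠ t in (U : Filter X), P t (g t)) := by
    intro g hg
    rw [hmem]
    have h1 := (el (U := U) hD).subtype.map_formula φ
      (Sum.elim (↑) (fun _ : Fin 1 => qm (U := U) hD g))
    rw [← h1]
    have h2 := Ultraproduct.realize_formula_cast (M := fun _ : X => ℕ) (u := U) φ
      (Sum.elim (fun p : (Set.univ : Set (el (U := U) hD)) => rep p.1) (fun _ : Fin 1 => g))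
    have h3 : ((el (U := U) hD).subtype ∘ Sum.elim (↑) (fun _ : Fin 1 => qm (U := U) hD g)) =
        fun i => cl U (Sum.elim (fun p : (Set.univ : Set (el (U := U) hD)) => rep p.1)
          (fun _ : Fin 1 => g) i) := by
      funext i
      rcases i with p | i
      · simp only [Function.comp_apply, Sum.elim_inl, ElementarySubstructure.subtype_apply]
        rw [← qm_val hD (hrepD _), hrep]
      · simp only [Function.comp_apply, Sum.elim_inr, ElementarySubstructure.subtype_apply]
        rw [qm_val hD hg]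
    rw [h3]
    refine h2.trans ?_
    have h4 : ∀ t, (fun i => (Sum.elim (fun p : (Set.univ : Set (el (U := U) hD)) => rep p.1)
        (fun _ : Fin 1 => g) i) t) =
        Sum.elim (fun p : (Set.univ : Set (el (U := U) hD)) => rep p.1 t)
          (fun _ : Fin 1 => g t) := by
      intro t
      funext i
      rcases i with p | i <;> rfl
    simp only [h4]
    exact Iff.rfl
  -- the least counterexample
  let H : X → ℕ := fun t => skolem ψ.not fv.card (fun j => F j t)
  have hF : ∀ j, F j ∈ D := by
    intro j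
    change Sum.elim (fun p : (Set.univ : Set (el (U := U) hD)) => rep p.1) (fun _ => fun _ => 0)
      (e.symm j).1 ∈ D
    rcases (e.symm j).1 with p | i
    · exact hrepD _
    · exact closed_zero hD
  have hH : H ∈ D := closed_skolem hD _ _ F hF
  have hHP : ∀ t, (∃ y, ¬ P t y) → ¬ P t (H t) ∧ ∀ y < H t, P t y := by
    intro t ht
    have e1 : {y : ℕ | (ψ.not).Realize (fun i => if h : i < fv.card then F ⟨i, h⟩ t else y)} =
        {y | ¬ P t y} := by
      ext y
      change (ψ.not).Realize _ ↔ ¬ P t y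
      rw [Formula.realize_not, key]
    have e2 : H t = sInf {y | ¬ P t y} := by
      change sInf {y : ℕ | (ψ.not).Realize
        (fun i => if h : i < fv.card then F ⟨i, h⟩ t else y)} = _
      rw [e1]
    constructor
    · rw [e2]
      exact Nat.sInf_mem (s := {y | ¬ P t y}) ht
    · intro y hy
      rw [e2] at hy
      by_contra hc
      exact Nat.notMem_of_lt_sInf hy hc
  obtain ⟨g, hg, rfl⟩ := qm_surj hD x
  rw [memS g hg, ← Ultrafilter.eventually_not] at hx
  rw [zero_qm, memS _ (closed_zero hD)] at h0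
  have h1 : qm (U := U) hD (fun t => H t - 1) ∈ S := by
    rw [memS _ (closed_pred hD hH)]
    filter_upwards [hx, h0] with t ht ht0
    obtain ⟨a, b⟩ := hHP t ⟨_, ht⟩
    apply b
    have : H t ≠ 0 := fun h => a (by rw [h]; exact ht0)
    omega
  have h2 := hs _ h1
  rw [one_qm, add_qm hD (closed_pred hD hH) (closed_one hD),
    memS _ (closed_add hD (closed_pred hD hH) (closed_one hD))] at h2
  have h3 : ∀ᶠ t in (U : Filter X), False := by
    filter_upwards [hx, h0, h2] with t ht ht0 ht2
    obtain ⟨a, b⟩ := hHP t ⟨_, ht⟩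
    have h4 : H t ≠ 0 := fun h => a (by rw [h]; exact ht0)
    apply a
    have h5 : H t - 1 + 1 = H t := by omega
    rwa [h5] at ht2
  rw [eventually_false_iff_eq_bot] at h3
  exact U.neBot.ne h3

theorem isPA : IsPA (el (U := U) hD) := by
  have h01 := closed_one hD
  have h00 := closed_zero hD
  refine ⟨?_, ?_, ?_, ?_, ?_, ?_, ?_, fun S hS h0 hs x => induction hD S hS h0 hs x⟩
  · intro x
    obtain ⟨f, hf, rfl⟩ := qm_surj hD x
    rw [one_qm, zero_qm, add_qm hD hf h01, Ne, qm_eq hD (closed_add hD hf h01) h00]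
    intro h
    obtain ⟨t, ht⟩ := h.exists
    omega
  · intro x y
    obtain ⟨f, hf, rfl⟩ := qm_surj hD x
    obtain ⟨g, hg, rfl⟩ := qm_surj hD y
    rw [one_qm, add_qm hD hf h01, add_qm hD hg h01,
      qm_eq hD (closed_add hD hf h01) (closed_add hD hg h01), qm_eq hD hf hg]
    intro h
    filter_upwards [h] with t ht
    omega
  · intro x
    obtain ⟨f, hf, rfl⟩ := qm_surj hD x
    rw [zero_qm, add_qm hD hf h00]
    simp
  · intro x y
    obtain ⟨f, hf, rfl⟩ := qm_surj hD x
    obtain ⟨g, hg, rfl⟩ := qm_surj hD y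
    rw [one_qm, add_qm hD hg h01, add_qm hD hf (closed_add hD hg h01), add_qm hD hf hg,
      add_qm hD (closed_add hD hf hg) h01]
    simp only [add_assoc]
  · intro x
    obtain ⟨f, hf, rfl⟩ := qm_surj hD x
    rw [zero_qm, mul_qm hD hf h00]
    simp
  · intro x y
    obtain ⟨f, hf, rfl⟩ := qm_surj hD x
    obtain ⟨g, hg, rfl⟩ := qm_surj hD y
    rw [one_qm, add_qm hD hg h01, mul_qm hD hf (closed_add hD hg h01), mul_qm hD hf hg,
      add_qm hD (closed_mul hD hf hg) hf]
    simp only [mul_add, mul_one]
  · intro x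
    obtain ⟨f, hf, rfl⟩ := qm_surj hD x
    rw [zero_qm, neg_qm hD hf]

/-- MODULE D1 -/
theorem base : BaseStatement := by
  intro L _ _ _ F G
  have : Nonempty F.X := ⟨(F.large_nonempty _ F.large_univ).some⟩
  have : (⨅ k, 𝓟 (G.S k)).NeBot := by
    apply iInf_neBot_of_directed
    · intro a b
      exact ⟨max a b, principal_mono.2 (G.anti (le_max_left a b)),
        principal_mono.2 (G.anti (le_max_right a b))⟩
    · intro k
      rw [principal_neBot_iff]
      exact F.large_nonempty _ (G.large k)
  let U : Ultrafilter F.X := Ultrafilter.of (⨅ k, 𝓟 (G.S k))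
  have hU : ∀ k, G.S k ∈ (U : Filter F.X) := by
    intro k
    apply Ultrafilter.of_le (⨅ k, 𝓟 (G.S k))
    exact mem_iInf_of_mem k (mem_principal_self _)
  refine ⟨el (U := U) G.closed, inferInstance, qm (U := U) G.closed, isPA G.closed, ?_⟩
  refine ⟨qm_surj G.closed, ?_, fun n fn f hf => qm_map G.closed fn f hf,
    fun A hAD hA => qm_el G.closed hAD hA⟩
  intro f hf g hg
  rw [qm_eq G.closed hf hg]
  constructor
  · intro h
    obtain ⟨k, c, hc⟩ := G.dec _ (closed_eqi G.closed hf hg) (by
      intro x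
      by_cases hx : f x = g x
      · right; simp [hx]
      · left; simp [hx])
    refine ⟨k, ?_⟩
    have h1 : ∀ᶠ x in (U : Filter F.X), x ∈ G.S k := hU k
    obtain ⟨x0, hx0, hx0k⟩ := (h.and h1).exists
    have hc1 : c = 1 := by
      rw [← hc x0 hx0k]
      simp [hx0]
    intro x hx
    by_contra hne
    have := hc x hx
    rw [if_neg hne, hc1] at this
    exact absurd this (by norm_num)
  · rintro ⟨k, hk⟩
    exact mem_of_superset (hU k) hk

end Pool.Agent.Helper55_PA
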